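import Pool.Agent.MWGX.StmtsB

/-!
# MWGX, row FEW (MP_23468a_al): kappa with a gap and `Es 1` imply `FE 1`
-/

set_option autoImplicit false

namespace Pool.Agent.MWGX.H62W

open Pool.Agent.Helper14_MV Pool.Agent.Helper2_MV Pool.Agent.MWGX
open Pool.Agent.MWK (pre)
open Pool.Agent.MWF (gaml)
open Pool.Agent.MWGN (nn Nm WC WT Tau Ns nl sg)
open Pool.Agent.MWGQ (pw Gn E0 A0 P0 bd kr krl Rs)
open Pool.Agent.MWGR (X It Kaba F1 Dm Ec Es Ea Al0 Rh FE)

theorem gL_one (n : ℕ) (x a b : ℕ) : gL n 1 [x] [a] [b] =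
    List.replicate n x ++ (a :: (List.replicate (n + 1) x ++ (b :: List.replicate n x))) := by
  unfold gL
  rw [pw_one, pw_one]
  rfl

theorem gR_one (n : ℕ) (x a b : ℕ) : gR n 1 [x] [a] [b] =
    List.replicate (n + 1) x ++ (b :: (List.replicate (n + (n - 1) * 1) x ++
      (a :: List.replicate (n + 1) x))) := by
  unfold gR
  rw [pw_one, pw_one]
  rfl

/-- the two sides have the same letters -/
theorem letters (n : ℕ) (hn : 1 ≤ n) (p : List ℕ) (x a b : ℕ) (d : ℕ) :
    d ∈ p ++ gR n 1 [x] [a] [b] ↔ d ∈ p ++ gL n 1 [x] [a] [b] := by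
  rw [gL_one, gR_one]
  simp only [List.mem_append, List.mem_cons, List.mem_replicate]
  have h1 : n ≠ 0 := by omega
  have h2 : n + 1 ≠ 0 := by omega
  have h3 : n + (n - 1) * 1 ≠ 0 := by omega
  simp only [h1, h2, h3, ne_eq, not_false_eq_true, true_and]
  tauto

/-- row FEW -/
theorem few (hC : CtxStmt) : FewStmt := by
  intro n β hG hI hE hK p q w r x a b hxa hxb hab hMul
  have hn : 1 ≤ n := hG.pos
  have eL : p ++ (List.replicate n x ++ a :: (List.replicate (n + 1) x ++
      b :: (List.replicate n x ++ (q ++ a :: (w ++ b :: r))))) =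
      (p ++ gL n 1 [x] [a] [b]) ++ (q ++ a :: (w ++ b :: r)) := by
    rw [gL_one]
    simp only [List.append_assoc, List.cons_append]
  have eR : p ++ (List.replicate (n + 1) x ++ b :: (List.replicate (n + (n - 1) * 1) x ++
        a :: (List.replicate (n + 1) x ++ (q ++ a :: (w ++ b :: r))))) =
      (p ++ gR n 1 [x] [a] [b]) ++ (q ++ a :: (w ++ b :: r)) := by
    rw [gR_one]
    simp only [List.append_assoc, List.cons_append]
  rw [eL] at hMul ⊢
  rw [eR]
  have ha : a ∈ p ++ gL n 1 [x] [a] [b] := by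
    rw [gL_one]
    simp
  have hb : b ∈ p ++ gL n 1 [x] [a] [b] := by
    rw [gL_one]
    simp
  rcases hC n β hG hI (p ++ gL n 1 [x] [a] [b]) q w r a b ha hb hMul with
    ⟨A, T, h⟩ | ⟨m, τ, A, B, S, L, C, T, hτ, h⟩
  · have h1 := h _ (fun d => Iff.rfl)
    have h2 := h (p ++ gR n 1 [x] [a] [b]) (letters n hn p x a b)
    have h3 : RR β ((X n ++ 1 :: (X (n + 1) ++ 2 :: (X n ++ [3, 1, 2]))).flatMap
        (fun c => if c = 0 then [x] else if c = 1 then [a] else if c = 2 then [b] else A))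
      ((X (n + 1) ++ 2 :: (X (n + (n - 1) * 1) ++ 1 :: (X (n + 1) ++ [3, 1, 2]))).flatMap
        (fun c => if c = 0 then [x] else if c = 1 then [a] else if c = 2 then [b] else A)) :=
      RR.sub _ hE
    rw [flat_l, flat_r] at h3
    have e3 : ([3, 1, 2] : List ℕ).flatMap
        (fun c => if c = 0 then [x] else if c = 1 then [a] else if c = 2 then [b] else A) =
        A ++ [a, b] := by
      simp
    rw [e3] at h3
    have h4 : RR β (gL n 1 [x] [a] [b] ++ (A ++ [a, b])) (gR n 1 [x] [a] [b] ++ (A ++ [a, b])) :=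
      h3
    have h5 := (RR.refl (β := β) p).append (h4.append (RR.refl (β := β) T))
    have e1 : ∀ G : List ℕ, p ++ ((G ++ (A ++ [a, b])) ++ T) =
        (p ++ G) ++ (A ++ (a :: b :: T)) := by
      intro G
      simp only [List.append_assoc, List.cons_append, List.nil_append]
    rw [e1, e1] at h5
    exact β.trans h1 (β.trans h5 h2.symm)
  · have h1 := h _ (fun d => Iff.rfl)
    have h2 := h (p ++ gR n 1 [x] [a] [b]) (letters n hn p x a b)
    have h4 := hK m τ hτ [x] [a] [b] A B S L C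
    have h5 := (RR.refl (β := β) p).append (h4.append (RR.refl (β := β) T))
    have e1 : ∀ G : List ℕ, p ++ ((G ++ kr n [a] [b] A B S L C τ m) ++ T) =
        (p ++ G) ++ (kr n [a] [b] A B S L C τ m ++ T) := by
      intro G
      simp only [List.append_assoc]
    rw [e1, e1] at h5
    exact β.trans h1 (β.trans h5 h2.symm)

end Pool.Agent.MWGX.H62W
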