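import Pool.Agent.MWGX.StmtsA

/-!
# MWGX, row RHP (MP_23468a_al): `Rh` and `P0` are equivalent
-/

set_option autoImplicit false

namespace Pool.Agent.MWGX.H62

open Pool.Agent.Helper14_MV Pool.Agent.Helper2_MV Pool.Agent.MWGX
open Pool.Agent.MWK (pre)
open Pool.Agent.MWF (gaml)
open Pool.Agent.MWGN (nn)
open Pool.Agent.MWGQ (pw Gn E0 A0 P0)
open Pool.Agent.MWGR (X It Kaba F1 Dm Ec Es Ea Al0 Rh FE)

theorem pw_zero (m : ℕ) : pw m [0] = X m := by
  unfold pw
  induction m with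
  | zero => rfl
  | succ m ih => rw [List.replicate_succ, List.flatten_cons, ih]; rfl

theorem flat_X (g : ℕ → List ℕ) (hg : g 0 = [0]) (m : ℕ) : (X m).flatMap g = X m := by
  induction m with
  | zero => rfl
  | succ m ih => rw [X, List.replicate_succ, List.flatMap_cons, hg, ih]; rfl

/-- row RHP -/
theorem rhp (hP : MWGQ.PwxStmt) : RhpStmt := by
  intro n β hG
  have hn : 1 ≤ n := hG.pos
  have hp : ∀ u : List ℕ, RR β ([0] ++ (u ++ X (n + 1))) ([0] ++ (u ++ [0])) := by
    intro u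
    have h := (hP n β hG).2.1 [0] u (n + 1) 1 (by omega) (le_refl _) (by simp [Nat.ModEq])
    rw [pw_zero, pw_zero] at h
    exact h
  constructor
  · intro h
    have h1 := RR.sub (fun c => if c = 3 then [0, 3] else [c]) h
    have e1 : ([0, 2, 1, 0, 3, 1] : List ℕ).flatMap (fun c => if c = 3 then [0, 3] else [c]) =
        [0, 2, 1, 0, 0, 3, 1] := rfl
    have e2 : ([0, 2] ++ (X n ++ [1, 0, 3, 1])).flatMap (fun c => if c = 3 then [0, 3] else [c]) =
        [0, 2] ++ (X n ++ [1, 0, 0, 3, 1]) := by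
      rw [List.flatMap_append, List.flatMap_append, flat_X _ rfl]
      rfl
    have h2 : RR β (([0, 2, 1, 0, 3, 1] : List ℕ).flatMap (fun c => if c = 3 then [0, 3] else [c]))
      (([0, 2] ++ (X n ++ [1, 0, 3, 1])).flatMap (fun c => if c = 3 then [0, 3] else [c])) := h1
    rw [e1, e2] at h2
    exact h2
  · intro h
    obtain ⟨n', rfl⟩ : ∃ n', n = n' + 1 := ⟨n - 1, by omega⟩
    have h1 : RR β (([0, 2, 1, 0, 0, 3, 1] : List ℕ).flatMap
        (fun c => if c = 3 then X n' ++ [3] else [c]))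
      (([0, 2] ++ (X (n' + 1) ++ [1, 0, 0, 3, 1])).flatMap
        (fun c => if c = 3 then X n' ++ [3] else [c])) := RR.sub _ h
    have e1 : ([0, 2, 1, 0, 0, 3, 1] : List ℕ).flatMap
        (fun c => if c = 3 then X n' ++ [3] else [c]) =
        ([0] ++ ([2, 1] ++ X (n' + 1 + 1))) ++ [3, 1] := by
      simp [X, List.replicate_succ]
    have e2 : ([0, 2] ++ (X (n' + 1) ++ [1, 0, 0, 3, 1])).flatMap
        (fun c => if c = 3 then X n' ++ [3] else [c]) =
        ([0] ++ (([2] ++ (X (n' + 1) ++ [1])) ++ X (n' + 1 + 1))) ++ [3, 1] := by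
      rw [List.flatMap_append, List.flatMap_append, flat_X _ rfl]
      simp [X, List.replicate_succ]
    rw [e1, e2] at h1
    have a1 := (hp [2, 1]).append (RR.refl (β := β) [3, 1])
    have a2 := (hp ([2] ++ (X (n' + 1) ++ [1]))).append (RR.refl (β := β) [3, 1])
    have a3 := β.trans a1.symm (β.trans h1 a2)
    have e3 : ([0] ++ (([2] ++ (X (n' + 1) ++ [1])) ++ [0])) ++ [3, 1] =
        [0, 2] ++ (X (n' + 1) ++ [1, 0, 3, 1]) := by simp
    have a4 : RR β (([0] ++ ([2, 1] ++ [0])) ++ [3, 1])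
      (([0] ++ (([2] ++ (X (n' + 1) ++ [1])) ++ [0])) ++ [3, 1]) := a3
    rw [e3] at a4
    exact a4

end Pool.Agent.MWGX.H62
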